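import Mathlib
import Pool.Agent.H8.NullFin

namespace Pool.Agent.Results.MP_ea2cf4_gt.NotCovered

open Filter Topology Set MeasureTheory

variable {X : Type} [AddCommGroup X] [TopologicalSpace X]

/-- Null-finite sets. -/
def NullFinite (A : Set X) : Prop :=
  ∃ x : ℕ → X, Tendsto x atTop (𝓝 0) ∧ ∀ y : X, {n | y + x n ∈ A}.Finite

/-- Borel Haar-null sets. -/
def HaarNull (B : Set X) : Prop :=
  MeasurableSet[borel X] B ∧ ∃ μ : @Measure X (borel X), IsProbabilityMeasure μ ∧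
    ∀ x : X, μ ((fun b => b + x) '' B) = 0

lemma img (x : ∀ n : ℕ, ZMod (n + 2)) :
    (fun b => b + x) '' {y : ∀ n : ℕ, ZMod (n + 2) | ∀ n, y n ≠ 0} =
      (fun b => -x + b) ⁻¹' {y : ∀ n : ℕ, ZMod (n + 2) | ∀ n, y n ≠ 0} := by
  ext y
  constructor
  · rintro ⟨b, hb, rfl⟩
    simpa using hb
  · intro h
    exact ⟨-x + y, h, by simp⟩

lemma closedA : IsClosed {y : ∀ n : ℕ, ZMod (n + 2) | ∀ n, y n ≠ 0} := by
  have h : {y : ∀ n : ℕ, ZMod (n + 2) | ∀ n, y n ≠ 0} =
      ⋂ n, (fun y : ∀ n : ℕ, ZMod (n + 2) => y n) ⁻¹' {a : ZMod (n + 2) | a ≠ 0} := by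
    ext y; simp
  rw [h]
  exact isClosed_iInter fun n => IsClosed.preimage (by fun_prop) (isClosed_discrete _)

/-- Some abelian Polish group contains a closed Haar-null set that is not covered by countably
many Borel null-finite sets. -/
theorem result : ∃ (X : Type) (_ : AddCommGroup X) (_ : TopologicalSpace X),
    IsTopologicalAddGroup X ∧ PolishSpace X ∧ ∃ F : Set X, IsClosed F ∧ HaarNull F ∧
      ¬ ∃ B : ℕ → Set X, (∀ k, MeasurableSet[borel X] (B k) ∧ NullFinite (B k)) ∧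
        F ⊆ ⋃ k, B k := by
  have hb : (MeasurableSpace.pi : MeasurableSpace (∀ n : ℕ, ZMod (n + 2))) = borel _ :=
    BorelSpace.measurable_eq
  have hm : MeasurableSet[borel (∀ n : ℕ, ZMod (n + 2))]
      {y : ∀ n : ℕ, ZMod (n + 2) | ∀ n, y n ≠ 0} := by
    rw [← hb]
    exact closedA.measurableSet
  refine ⟨∀ n : ℕ, ZMod (n + 2), inferInstance, inferInstance, inferInstance, inferInstance,
    {y | ∀ n, y n ≠ 0}, closedA, ⟨hm, ?_⟩, ?_⟩
  · rw [← hb]
    refine ⟨Pool.Agent.H8.NullFin.haar, inferInstance, fun x => ?_⟩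
    rw [img, measure_preimage_add]
    exact Pool.Agent.H8.NullFin.haar_null
  · rintro ⟨B, hB, hsub⟩
    choose x hx hfin using fun k => (hB k).2
    exact Pool.Agent.H8.NullFin.core (G := fun n => ZMod (n + 2))
      (fun n => (Nat.card_zmod (n + 2)).ge) B (fun k => (hB k).1) x hx hfin hsub

end Pool.Agent.Results.MP_ea2cf4_gt.NotCovered
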